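import Pool.Agent.H41.TF6

namespace Pool.Agent.Results.MP_a69704_mp.NotConvex

open Pool.Agent.H41.TF

theorem result :
    ∀ p A γ C : ℝ, 4 / 3 < p → 0 < A → 0 < γ → 0 < C → ∃ Z : ℝ, 0 < Z ∧
      ∀ (k : ℕ) (z : Fin k → ℝ) (R : Fin k → E3), (∀ j, 0 < z j) → ∑ j, z j ≤ Z →
        ¬ConvexOn ℝ (Set.Ici 0) (Ezero p A γ C z R) :=
  fun _ _ _ _ => nonconvex

end Pool.Agent.Results.MP_a69704_mp.NotConvex
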